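import Mathlib

set_option autoImplicit false
open MvPolynomial Finsupp

namespace Pool.Agent.Results.MP_72aa19_al.No

variable {K : Type} [Field K] (w : Fin 2 → ℤ) (I : Ideal (MvPolynomial (Fin 2) K)) (d : ℤ)

/-- `H^0_{(x,y)}(I)_d ≠ 0` (Cech complex on `x, y`). -/
def H0 : Prop := ∃ m ∈ I, m.IsWeightedHomogeneous w d ∧ m ≠ 0 ∧ ∃ l : ℕ, X 0 ^ l * m = 0 ∧ X 1 ^ l * m = 0

/-- `H^1_{(x,y)}(I)_d ≠ 0`: a cocycle `(a / x^j, b / y^j)` that is not a coboundary. -/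
def H1 : Prop := ∃ j : ℕ, ∃ a ∈ I, ∃ b ∈ I, a.IsWeightedHomogeneous w (d + j * w 0) ∧
  b.IsWeightedHomogeneous w (d + j * w 1) ∧ (∃ l : ℕ, (X 0 * X 1) ^ l * (X 1 ^ j * a - X 0 ^ j * b) = 0) ∧
  ¬ ∃ m ∈ I, ∃ l : ℕ, X 0 ^ l * (a - X 0 ^ j * m) = 0 ∧ X 1 ^ l * (b - X 1 ^ j * m) = 0

/-- `H^2_{(x,y)}(I)_d ≠ 0`: some `m / (xy)^j` is not in `I_x + I_y`. -/
def H2 : Prop := ∃ j : ℕ, ∃ m ∈ I, m.IsWeightedHomogeneous w (d + j * (w 0 + w 1)) ∧
  ¬ ∃ l : ℕ, ∃ a ∈ I, ∃ b ∈ I, (X 0 * X 1) ^ l * m = X 1 ^ (j + l) * a + X 0 ^ (j + l) * b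

theorem mono (a b : ℕ) : (X 0 ^ a * X 1 ^ b : MvPolynomial (Fin 2) K) =
    monomial (single 0 a + single 1 b) 1 := by simp [X_pow_eq_monomial]

theorem sp (k j : ℕ) (m : MvPolynomial (Fin 2) K) : (∃ a ∈ Ideal.span {X 0} ^ k, ∃ b ∈ Ideal.span {X 0} ^ k,
    m = X 1 ^ j * a + X 0 ^ j * b) ↔ ∀ s ∈ m.support, k ≤ s 0 ∧ (j ≤ s 1 ∨ k + j ≤ s 0) := by
  have := mem_ideal_span_monomial_image (x := m) (s := {single 0 k + single 1 j, single 0 (k + j) + single 1 0})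
  simp only [Set.image_pair, ← mono, Ideal.mem_span_pair, Set.mem_insert_iff, Set.mem_singleton_iff,
    exists_eq_or_imp, exists_eq_left, Finsupp.le_def, Fin.forall_fin_two] at this
  simp only [Ideal.span_singleton_pow, Ideal.mem_span_singleton]
  refine .trans ⟨?_, ?_⟩ (this.trans (forall₂_congr fun s _ => by simp; omega))
  · rintro ⟨_, ⟨a, rfl⟩, _, ⟨b, rfl⟩, rfl⟩; exact ⟨a, b, by ring⟩
  · rintro ⟨a, b, rfl⟩; exact ⟨_, ⟨a, rfl⟩, _, ⟨b, rfl⟩, by ring⟩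

theorem result (K : Type) [Field K] (e : ℕ) (he : 0 < e) :
    IsNoetherianRing (reesAlgebra (Ideal.span {X 0} : Ideal (MvPolynomial (Fin 2) K))) ∧ ∀ k : ℕ, 0 < k →
      IsLeast {d : ℤ | ∃ f : MvPolynomial (Fin 2) K, f.IsWeightedHomogeneous ![1, (e : ℤ)] d ∧
        ((Ideal.span {X 0} ^ k).colon {f}).IsPrime} (k - 1) ∧
      IsGreatest {n : ℤ | H0 ![1, e] (Ideal.span {X 0} ^ k : Ideal (MvPolynomial (Fin 2) K)) n ∨
        H1 ![1, e] (Ideal.span {X 0} ^ k : Ideal (MvPolynomial (Fin 2) K)) (n - 1) ∨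
        H2 ![1, e] (Ideal.span {X 0} ^ k : Ideal (MvPolynomial (Fin 2) K)) (n - 2)} (k + 1 - e) := by
  have px : Prime (X 0 : MvPolynomial (Fin 2) K) := X_prime
  have wt : ∀ s : Fin 2 →₀ ℕ, weight ![1, (e : ℤ)] s = s 0 + s 1 * e := fun s => by
    simp [weight_apply, Finsupp.sum_fintype]
  have hx : ∀ k : ℕ, (X 0 ^ k : MvPolynomial (Fin 2) K).IsWeightedHomogeneous ![1, (e : ℤ)] k :=
    fun k => by simpa using (isWeightedHomogeneous_X K ![1, (e : ℤ)] 0).pow k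
  have nd : ∀ j : ℕ, ¬ (X 0 : MvPolynomial (Fin 2) K) ∣ X 1 ^ j := fun j h => by
    simpa using px.dvd_of_dvd_pow h
  refine ⟨inferInstance, fun k hk => ?_⟩
  obtain ⟨k, rfl⟩ := Nat.exists_eq_add_one.2 hk
  refine ⟨⟨⟨X 0 ^ k, by simpa using hx k, ?_⟩, fun d ⟨f, h1, h2⟩ => ?_⟩, .inr (.inr ⟨1, X 0 ^ (k + 1),
    Ideal.pow_mem_pow (Ideal.mem_span_singleton_self _) _, ?_, fun ⟨l, h⟩ => ?_⟩), ?_⟩
  · refine (congrArg _ (Ideal.ext fun r => ?_)).mp ((Ideal.span_singleton_prime px.ne_zero).2 px)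
    rw [Submodule.mem_colon_singleton, Ideal.span_singleton_pow, Ideal.mem_span_singleton,
      Ideal.mem_span_singleton, pow_succ', smul_eq_mul, mul_dvd_mul_iff_right (pow_ne_zero _ px.ne_zero)]
  · have h3 := h2.mem_of_pow_mem (r := X 0) (k + 1) (Submodule.mem_colon_singleton.2 (Ideal.mul_mem_right _ _
      (Ideal.pow_mem_pow (Ideal.mem_span_singleton_self _) _)))
    obtain ⟨s, hs⟩ := support_nonempty.2 (show f ≠ 0 by rintro rfl; exact h2.ne_top (by simp))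
    rw [Submodule.mem_colon_singleton, Ideal.span_singleton_pow, Ideal.mem_span_singleton, pow_succ',
      smul_eq_mul, mul_dvd_mul_iff_left px.ne_zero] at h3
    have := ((sp k 0 f).1 ⟨f, by rwa [Ideal.span_singleton_pow, Ideal.mem_span_singleton], 0, by simp,
      by simp⟩ s hs).1
    rw [← h1 (MvPolynomial.mem_support_iff.1 hs), wt]
    push_cast; nlinarith [Int.ofNat_le.2 this]
  · exact (congrArg _ (by simp; ring)).mp (hx (k + 1))
  · have := (sp _ _ _).1 h (single 0 (k + 1 + l) + single 1 l) (by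
      rw [show ((X 0 * X 1) ^ l * X 0 ^ (k + 1) : MvPolynomial (Fin 2) K) = X 0 ^ (k + 1 + l) * X 1 ^ l by
        ring, mono]; simp)
    simp at this
  · rintro n (⟨m, -, -, h, l, a, -⟩ | ⟨j, a, ha, b, hb, -, -, ⟨l, h⟩, h'⟩ | ⟨j, m, hm, h, h'⟩)
    · simp [h] at a
    · have h : X 1 ^ j * a = X 0 ^ j * b := by simpa [sub_eq_zero] using h
      obtain ⟨m, rfl⟩ := px.pow_dvd_of_dvd_mul_left j (nd j) ⟨b, h⟩
      obtain rfl : X 1 ^ j * m = b := mul_left_cancel₀ (pow_ne_zero j px.ne_zero) (by rw [← h]; ring)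
      rw [Ideal.span_singleton_pow] at hb h'
      exact absurd ⟨m, Ideal.mem_span_singleton.2 (px.pow_dvd_of_dvd_mul_left _ (nd j)
        (Ideal.mem_span_singleton.1 hb)), 0, by simp⟩ h'
    · by_contra! c
      refine h' ⟨0, ?_⟩
      rw [pow_zero, one_mul]
      refine (sp (k + 1) j m).2 fun s hs => ?_
      have a := ((sp (k + 1) 0 m).1 ⟨m, hm, 0, by simp, by simp⟩ s hs).1
      have b := h (MvPolynomial.mem_support_iff.1 hs)
      refine ⟨a, by_contra fun q => ?_⟩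
      rw [not_or, not_le, not_le] at q
      simp [wt] at b
      have q1 : (s 1 : ℤ) + 1 ≤ j := by omega
      have := mul_le_mul_of_nonneg_right q1 (e.cast_nonneg (α := ℤ))
      have q2 : (s 0 : ℤ) ≤ k + j := by omega
      push_cast at c; linarith

end Pool.Agent.Results.MP_72aa19_al.No
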